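import Pool.Agent.Shared.Weier.Add

set_option autoImplicit false

open Filter Topology Metric Complex PeriodPair
open scoped Real ComplexConjugate

namespace Pool.Agent.Shared.Weier

variable {L : PeriodPair}

/-- The absolute value of the Klein form is periodic. -/
theorem norm_klein_add {l : ℂ} (hl : l ∈ L.lattice) (z : ℂ) :
    ‖sig L (z + l) * cexp (-(eta L (z + l) * (z + l) / 2))‖ =
      ‖sig L z * cexp (-(eta L z * z / 2))‖ := by
  obtain ⟨e, he, -, h⟩ := sig_add hl
  have he1 : ‖e‖ = 1 := by rcases he with rfl | rfl <;> simp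
  have h1 : cexp (eta L l * (z + l / 2)) * cexp (-(eta L (z + l) * (z + l) / 2)) =
      cexp ((eta L l * z - eta L z * l) / 2) * cexp (-(eta L z * z / 2)) := by
    rw [← exp_add, ← exp_add, map_add]; congr 1; ring
  have h2 : ‖cexp ((eta L l * z - eta L z * l) / 2)‖ = 1 := by
    rw [norm_exp, div_ofNat_re, re_eta_form]; simp
  calc _ = ‖e * sig L z * (cexp (eta L l * (z + l / 2)) *
        cexp (-(eta L (z + l) * (z + l) / 2)))‖ := by rw [h]; congr 1; ring
    _ = _ := by rw [h1]; simp only [norm_mul, he1, h2, one_mul]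

/-- The quasi-period map has the form `a z + b conj z` with `b > 0`. -/
theorem exists_eta_eq (L : PeriodPair) :
    ∃ (a : ℂ) (b : ℝ), 0 < b ∧ ∀ z, eta L z = a * z + b * conj z := by
  set a := (eta L 1 - I * eta L I) / 2
  set b := (eta L 1 + I * eta L I) / 2
  have h1 : ∀ z, eta L z = a * z + b * conj z := fun z => by
    have e : eta L z = z.re * eta L 1 + z.im * eta L I := by
      conv_lhs => rw [← re_add_im z, ← mul_one (z.re : ℂ), ← real_smul, ← real_smul]
      rw [map_add, map_smul, map_smul, real_smul, real_smul]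
    have e2 : conj z = z.re - z.im * I := by
      apply Complex.ext <;> simp
    rw [e, e2]
    nth_rewrite 3 [← re_add_im z]
    simp only [a, b]
    linear_combination (z.im * eta L I) * I_sq
  have h2 : b.im = 0 := by
    have := re_eta_form (L := L) 1 I
    rw [h1, h1] at this
    simp at this
    linarith
  have h3 : (b.re : ℂ) = b := by apply Complex.ext <;> simp [h2]
  refine ⟨a, b.re, ?_, by rw [h3]; exact h1⟩
  by_contra! hb
  have hd := differentiable_sig L
  have hc := hd.continuous
  have hc2 := (eta L).continuous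
  obtain ⟨M, hM⟩ := (IsZLattice.isCompact_range_of_periodic L.lattice
    (fun z => ‖sig L z * cexp (-(eta L z * z / 2))‖) (by fun_prop)
    (fun z w hw => norm_klein_add hw z)).bddAbove
  have key := Differentiable.apply_eq_apply_of_bounded
    (f := fun z => sig L z * cexp (-(a * z ^ 2 / 2))) (by fun_prop)
    (isBounded_iff_forall_norm_le.mpr ⟨M, by
      rintro _ ⟨z, rfl⟩
      refine le_trans ?_ (hM ⟨z, rfl⟩)
      simp only [norm_mul]
      gcongr
      have e : -(eta L z * z / 2) = -(a * z ^ 2 / 2) + ((-(b.re * normSq z / 2) : ℝ) : ℂ) := by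
        rw [h1, ← h3]
        push_cast
        rw [normSq_eq_conj_mul_self]
        simp only [ofReal_re]
        ring
      rw [norm_exp, norm_exp, e, add_re, ofReal_re]
      have := mul_nonpos_of_nonpos_of_nonneg hb (normSq_nonneg z)
      exact Real.exp_le_exp.mpr (by linarith)⟩) (L.ω₁ / 2) 0
  simp only [sig_zero, zero_mul] at key
  exact mul_ne_zero (sig_ne L.ω₁_div_two_notMem_lattice) (exp_ne_zero _) key

lemma im_leg (L : PeriodPair) : ∃ b : ℝ, 0 < b ∧ (leg L).im = -(b * (L.ω₁ * conj L.ω₂).im) := by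
  obtain ⟨a, b, hb, h⟩ := exists_eta_eq L
  refine ⟨2 * b, by positivity, ?_⟩
  rw [leg, h, h]
  simp
  ring

/-- **Legendre relation** with sign. -/
theorem leg_eq (h : 0 < (L.ω₁ / L.ω₂).im) : leg L = -(2 * π * I) := by
  obtain ⟨b, hb, e⟩ := im_leg L
  have h1 : 0 < (L.ω₁ * conj L.ω₂).im := by
    rw [div_eq_mul_inv, inv_def, ← mul_assoc, im_mul_ofReal] at h
    exact (pos_iff_pos_of_mul_pos h).mpr (lt_of_le_of_ne (inv_nonneg.mpr (normSq_nonneg _))
      fun h0 => by rw [← h0, mul_zero] at h; exact lt_irrefl _ h)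
  rcases legendre (L := L) with h2 | h2
  · rw [h2] at e
    simp only [mul_im, re_ofNat, ofReal_re, im_ofNat, ofReal_im, mul_zero, sub_zero, I_im, mul_one,
      zero_mul, add_zero, I_re, mul_re] at e
    have := mul_pos hb h1
    have := Real.pi_pos
    simp only [mul_im] at *
    linarith
  · exact h2

theorem leg_eq' (h : 0 < (L.ω₂ / L.ω₁).im) : leg L = 2 * π * I := by
  obtain ⟨b, hb, e⟩ := im_leg L
  have h1 : 0 < (L.ω₂ * conj L.ω₁).im := by
    rw [div_eq_mul_inv, inv_def, ← mul_assoc, im_mul_ofReal] at h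
    exact (pos_iff_pos_of_mul_pos h).mpr (lt_of_le_of_ne (inv_nonneg.mpr (normSq_nonneg _))
      fun h0 => by rw [← h0, mul_zero] at h; exact lt_irrefl _ h)
  rcases legendre (L := L) with h2 | h2
  · exact h2
  · rw [h2] at e
    have := mul_pos hb h1
    have := Real.pi_pos
    simp at *
    nlinarith

end Pool.Agent.Shared.Weier
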