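import Pool.Agent.Shared.Weier.Add

set_option autoImplicit false

open Filter Topology Metric Complex PeriodPair WeierstrassCurve
open scoped Real

namespace Pool.Agent.Shared.Weier

/-- The lattice `L` is the period lattice of the invariant differential of `W`. -/
structure IsPer (L : PeriodPair) (W : WeierstrassCurve ℂ) : Prop where
  h4 : W.c₄ = 12 * L.g₂
  h6 : W.c₆ = 216 * L.g₃

/-- The `x`-coordinate of the uniformization. -/
noncomputable def ux (L : PeriodPair) (W : WeierstrassCurve ℂ) (z : ℂ) : ℂ := ℘[L] z - W.b₂ / 12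

/-- The `y`-coordinate of the uniformization. -/
noncomputable def uy (L : PeriodPair) (W : WeierstrassCurve ℂ) (z : ℂ) : ℂ :=
  (℘'[L] z - W.a₁ * ux L W z - W.a₃) / 2

variable {L : PeriodPair} {W : WeierstrassCurve ℂ}

namespace IsPer

lemma Δ_eq (h : IsPer L W) : W.Δ = L.g₂ ^ 3 - 27 * L.g₃ ^ 2 := by
  have := W.c_relation
  rw [h.h4, h.h6] at this
  linear_combination this / 1728

lemma Δ_ne (h : IsPer L W) : W.Δ ≠ 0 := h.Δ_eq ▸ disc_ne_zero L

lemma equation_iff (h : IsPer L W) (x y : ℂ) : W.toAffine.Equation x y ↔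
    (2 * y + W.a₁ * x + W.a₃) ^ 2 =
      4 * (x + W.b₂ / 12) ^ 3 - L.g₂ * (x + W.b₂ / 12) - L.g₃ := by
  have h4 : L.g₂ = W.c₄ / 12 := by rw [h.h4]; ring
  have h6 : L.g₃ = W.c₆ / 216 := by rw [h.h6]; ring
  rw [Affine.equation_iff, h4, h6]
  simp only [c₄, c₆, b₂, b₄, b₆]
  constructor
  · intro e; linear_combination 4 * e
  · intro e; linear_combination e / 4

lemma nonsingular (h : IsPer L W) {z : ℂ} (hz : z ∉ L.lattice) :
    W.toAffine.Nonsingular (ux L W z) (uy L W z) := by
  rw [← Affine.equation_iff_nonsingular_of_Δ_ne_zero h.Δ_ne, h.equation_iff]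
  have := L.derivWeierstrassP_sq z hz
  simp only [uy, ux]
  linear_combination this

open Classical in
/-- The point of `W` attached to a complex number. -/
noncomputable def pt (h : IsPer L W) (z : ℂ) : W.toAffine.Point :=
  if hz : z ∈ L.lattice then 0 else .some _ _ (h.nonsingular hz)

lemma pt_of_mem (h : IsPer L W) {z : ℂ} (hz : z ∈ L.lattice) : h.pt z = 0 := dif_pos hz

lemma pt_of_notMem (h : IsPer L W) {z : ℂ} (hz : z ∉ L.lattice) :
    h.pt z = .some _ _ (h.nonsingular hz) := dif_neg hz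

lemma some_congr {x y x' y' : ℂ} {h : W.toAffine.Nonsingular x y}
    {h' : W.toAffine.Nonsingular x' y'} (hx : x = x') (hy : y = y') :
    Affine.Point.some _ _ h = Affine.Point.some _ _ h' := by
  subst hx hy; rfl

lemma pt_add_mem (h : IsPer L W) (z : ℂ) {l : ℂ} (hl : l ∈ L.lattice) :
    h.pt (z + l) = h.pt z := by
  by_cases hz : z ∈ L.lattice
  · rw [h.pt_of_mem hz, h.pt_of_mem (add_mem hz hl)]
  · rw [h.pt_of_notMem hz, h.pt_of_notMem (add_notMem hz hl)]
    have e1 := L.weierstrassP_add_coe z ⟨l, hl⟩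
    have e2 := L.derivWeierstrassP_add_coe z ⟨l, hl⟩
    exact some_congr (by simp only [ux, e1]) (by simp only [uy, ux, e1, e2])

lemma pt_neg (h : IsPer L W) (z : ℂ) : h.pt (-z) = -h.pt z := by
  by_cases hz : z ∈ L.lattice
  · rw [h.pt_of_mem hz, h.pt_of_mem (neg_mem hz), neg_zero]
  · rw [h.pt_of_notMem hz, h.pt_of_notMem (fun h' => hz (by simpa using neg_mem h')),
      Affine.Point.neg_some]
    refine some_congr (by simp [ux]) ?_
    simp only [uy, ux, weierstrassP_neg, derivWeierstrassP_neg, Affine.negY]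
    ring

lemma pt_add_generic (h : IsPer L W) {u v : ℂ} (hu : u ∉ L.lattice) (hv : v ∉ L.lattice)
    (h1 : u + v ∉ L.lattice) (h2 : u - v ∉ L.lattice) : h.pt (u + v) = h.pt u + h.pt v := by
  have hne := wp_ne hu hv h1 h2
  have hx : ux L W u ≠ ux L W v := fun e => hne (by simp only [ux] at e; linear_combination e)
  rw [h.pt_of_notMem hu, h.pt_of_notMem hv, h.pt_of_notMem h1, Affine.Point.add_of_X_ne hx]
  have e1 := zet_add_formula hu hv h1 h2
  have e2 := wp_add hu hv h1 h2
  have e3 := wp'_add hu hv h1 h2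
  set m := zet L (u + v) - zet L u - zet L v
  have hs : W.toAffine.slope (ux L W u) (ux L W v) (uy L W u) (uy L W v) = m - W.a₁ / 2 := by
    rw [Affine.slope_of_X_ne hx, div_eq_iff (sub_ne_zero.mpr hx)]
    simp only [uy, ux]
    linear_combination e1 / 2
  have hX : ux L W (u + v) = W.toAffine.addX (ux L W u) (ux L W v) (m - W.a₁ / 2) := by
    simp only [Affine.addX, ux, e2, b₂]
    ring
  refine some_congr (by rw [hs, hX]) ?_
  rw [hs, Affine.addY, Affine.negY, Affine.negAddY, ← hX]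
  simp only [uy, ux, e3]
  ring

lemma pt_add (h : IsPer L W) (u v : ℂ) : h.pt (u + v) = h.pt u + h.pt v := by
  by_cases hu : u ∈ L.lattice
  · rw [add_comm, h.pt_add_mem v hu, h.pt_of_mem hu, zero_add]
  by_cases hv : v ∈ L.lattice
  · rw [h.pt_add_mem u hv, h.pt_of_mem hv, add_zero]
  by_cases h1 : u + v ∈ L.lattice
  · have : h.pt v = -h.pt u := by
      rw [← h.pt_neg, ← h.pt_add_mem (-u) h1]; congr 1; ring
    rw [h.pt_of_mem h1, this, add_neg_cancel]
  by_cases h2 : u - v ∉ L.lattice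
  · exact h.pt_add_generic hu hv h1 h2
  rw [not_not] at h2
  have hc := countable_lattice (L := L)
  obtain ⟨w, hw⟩ : ∃ w : ℂ, ¬ (w ∈ L.lattice ∨ u + w ∈ L.lattice ∨ v - w ∈ L.lattice ∨
      u - v + 2 * w ∈ L.lattice ∨ u - w ∈ L.lattice ∨ v + w ∈ L.lattice) := by
    by_contra! hcon
    have : (Set.univ : Set ℂ).Countable := by
      refine Set.Countable.mono (fun w _ => hcon w) (hc.union ((hc.preimage_of_injOn
        (f := fun w => u + w) ?_).union ((hc.preimage_of_injOn (f := fun w => v - w) ?_).union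
        ((hc.preimage_of_injOn (f := fun w => u - v + 2 * w) ?_).union
        ((hc.preimage_of_injOn (f := fun w => u - w) ?_).union
        (hc.preimage_of_injOn (f := fun w => v + w) ?_))))))
      all_goals
        intro a _ b _ e
        simpa using e
    exact not_countable_complex this
  push Not at hw
  obtain ⟨w0, w1, w2, w3, w4, w5⟩ := hw
  have a1 := h.pt_add_generic w1 w2 (by convert h1 using 2; ring) (by convert w3 using 2; ring)
  have a2 := h.pt_add_generic hu w0 w1 w4
  have a3 := h.pt_add_generic hv (v := -w) (fun e => w0 (by simpa using neg_mem e))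
    (by rwa [← sub_eq_add_neg]) (by rwa [sub_neg_eq_add])
  rw [← sub_eq_add_neg, h.pt_neg] at a3
  rw [show u + w + (v - w) = u + v by ring, a2, a3] at a1
  rw [a1]
  abel

/-- The uniformization `ℂ → W(ℂ)`, a homomorphism of groups. -/
noncomputable def unif (h : IsPer L W) : ℂ →+ W.toAffine.Point :=
  AddMonoidHom.mk' h.pt h.pt_add

theorem unif_of_notMem (h : IsPer L W) {z : ℂ} (hz : z ∉ L.lattice) :
    h.unif z = .some _ _ (h.nonsingular hz) := h.pt_of_notMem hz

theorem unif_eq_zero_iff (h : IsPer L W) {z : ℂ} : h.unif z = 0 ↔ z ∈ L.lattice := by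
  refine ⟨fun e => ?_, h.pt_of_mem⟩
  by_contra hz
  rw [h.unif_of_notMem hz] at e
  exact Affine.Point.some_ne_zero _ e

theorem unif_eq_iff (h : IsPer L W) {z w : ℂ} : h.unif z = h.unif w ↔ z - w ∈ L.lattice := by
  rw [← sub_eq_zero, ← map_sub, h.unif_eq_zero_iff]

theorem unif_eq_some_iff (h : IsPer L W) {z x y : ℂ} (hxy : W.toAffine.Nonsingular x y) :
    h.unif z = .some _ _ hxy ↔ z ∉ L.lattice ∧ ux L W z = x ∧ uy L W z = y := by
  constructor
  · intro e
    have hz : z ∉ L.lattice := fun hz =>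
      Affine.Point.some_ne_zero _ (e.symm.trans (h.unif_eq_zero_iff.mpr hz))
    rw [h.unif_of_notMem hz] at e
    injection e with e1 e2
    exact ⟨hz, e1, e2⟩
  · rintro ⟨hz, e1, e2⟩
    rw [h.unif_of_notMem hz]
    exact some_congr e1 e2

theorem unif_surjective (h : IsPer L W) : Function.Surjective h.unif := by
  rintro (_ | ⟨x, y, hxy⟩)
  · exact ⟨0, map_zero _⟩
  obtain ⟨z, hz, e⟩ := wp_surjective (L := L) (x + W.b₂ / 12)
  have hx : ux L W z = x := by rw [ux, e]; ring
  rcases Affine.Y_eq_of_X_eq (h.nonsingular hz).1 hxy.1 hx with hy | hy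
  · exact ⟨z, (h.unif_eq_some_iff hxy).mpr ⟨hz, hx, hy⟩⟩
  · refine ⟨-z, ?_⟩
    rw [map_neg, h.unif_of_notMem hz, Affine.Point.neg_some]
    exact some_congr hx (by rw [hy, hx, Affine.negY_negY])

end IsPer

lemma hasDerivAt_ux {z : ℂ} (hz : z ∉ L.lattice) :
    HasDerivAt (ux L W) (2 * uy L W z + W.a₁ * ux L W z + W.a₃) z := by
  refine ((hasDerivAt_wp hz).sub_const (W.b₂ / 12)).congr_deriv ?_
  rw [uy]; ring

/-- The short Weierstrass model attached to a lattice. -/
noncomputable def shortW (L : PeriodPair) : WeierstrassCurve ℂ := ⟨0, 0, 0, -L.g₂ / 4, -L.g₃ / 4⟩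

lemma isPer_shortW (L : PeriodPair) : IsPer L (shortW L) := by
  constructor <;> simp only [shortW, c₄, c₆, b₂, b₄, b₆] <;> ring

end Pool.Agent.Shared.Weier
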