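import Pool.Agent.Shared.Weier.Sigma

set_option autoImplicit false

open Filter Topology Metric Complex PeriodPair
open scoped Real

namespace Pool.Agent.Shared.Weier

variable {L : PeriodPair}

lemma tendsto_add_nhdsNE (x a : ℂ) : Tendsto (fun z => z + a) (𝓝[≠] x) (𝓝[≠] (x + a)) :=
  tendsto_nhdsWithin_iff.mpr ⟨((continuous_add_const a).tendsto x).mono_left nhdsWithin_le_nhds,
    eventually_nhdsWithin_of_forall fun _ hz h => hz (add_right_cancel h)⟩

/-- An entire function which is periodic with respect to the lattice is constant. -/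
theorem liouville_entire {f : ℂ → ℂ} (hd : Differentiable ℂ f)
    (hp : ∀ l ∈ L.lattice, ∀ z, f (z + l) = f z) (z w : ℂ) : f z = f w :=
  hd.apply_eq_apply_of_bounded (IsZLattice.isCompact_range_of_periodic L.lattice _
    hd.continuous fun z w hw => hp w hw z).isBounded z w

/-- Liouville theorem for elliptic functions holomorphic off the lattice. -/
theorem liouville {f : ℂ → ℂ} {c : ℂ} (hd : ∀ z ∉ L.lattice, DifferentiableAt ℂ f z)
    (hp : ∀ l ∈ L.lattice, ∀ z ∉ L.lattice, f (z + l) = f z)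
    (hc : Tendsto f (𝓝[≠] 0) (𝓝 c)) {z : ℂ} (hz : z ∉ L.lattice) : f z = c := by
  classical
  let g : ℂ → ℂ := fun w => if w ∈ L.lattice then c else f w
  have hg : ∀ l ∈ L.lattice, ∀ w, g (w + l) = g w := fun l hl w => by
    by_cases hw : w ∈ L.lattice
    · simp [g, hw, add_mem hw hl]
    · simp [g, hw, add_notMem hw hl, hp l hl w hw]
  have hd1 : ∀ w ∉ L.lattice, DifferentiableAt ℂ g w := fun w hw => by
    refine (hd w hw).congr_of_eventuallyEq ?_
    filter_upwards [isOpen_compl.mem_nhds hw] with x hx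
    exact if_neg hx
  have hd0 : DifferentiableAt ℂ g 0 := by
    refine (analyticAt_of_differentiable_on_punctured_nhds_of_continuousAt ?_ ?_).differentiableAt
    · filter_upwards [ev_notMem (L := L) 0] with w hw using hd1 w hw
    · rw [← continuousWithinAt_compl_self, ContinuousWithinAt, show g 0 = c from if_pos (zero_mem _)]
      refine hc.congr' ?_
      filter_upwards [ev_notMem (L := L) 0] with w hw
      exact (if_neg hw).symm
  have hdiff : Differentiable ℂ g := fun w => by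
    by_cases hw : w ∈ L.lattice
    · have : g = fun x => g (x + -w) := funext fun x => (hg _ (neg_mem hw) x).symm
      rw [this]
      exact (HasDerivAt.comp_add_const w (-w)
        (by rw [add_neg_cancel]; exact hd0.hasDerivAt)).differentiableAt
    · exact hd1 w hw
  have := liouville_entire hdiff hg z 0
  simpa [g, hz] using this

lemma tendsto_div_sq {A : ℂ → ℂ} (hA : AnalyticAt ℂ A 0) (h0 : A 0 = 0) (h1 : deriv A 0 = 0) :
    ∃ c, Tendsto (fun z => A z / z ^ 2) (𝓝[≠] 0) (𝓝 c) := by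
  obtain ⟨g, hg, he⟩ := (natCast_le_analyticOrderAt hA (n := 2)).mp
    ((natCast_le_analyticOrderAt_iff_iteratedDeriv_eq_zero hA).mpr fun i hi => by
      interval_cases i <;> simp [h0, h1])
  refine ⟨g 0, (hg.continuousAt.tendsto.mono_left nhdsWithin_le_nhds).congr' ?_⟩
  filter_upwards [self_mem_nhdsWithin, mem_nhdsWithin_of_mem_nhds he] with z hz hz'
  have : z ≠ 0 := hz
  rw [hz']
  simp only [sub_zero, smul_eq_mul]
  field_simp

lemma deriv_zero_of_even {A : ℂ → ℂ} (h : ∀ z, A (-z) = A z) : deriv A 0 = 0 := by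
  have := deriv_comp_neg A 0
  simp only [h, neg_zero] at this
  exact CharZero.eq_neg_self_iff.mp this

lemma analyticAt_sig (z : ℂ) : AnalyticAt ℂ (sig L) z := (differentiable_sig L).analyticAt z

lemma analyticAt_sig0 (z : ℂ) : AnalyticAt ℂ (sig0 L) z := (differentiable_sig0 L).analyticAt z

lemma analyticAt_zet0 : AnalyticAt ℂ (zet0 L) 0 :=
  DifferentiableOn.analyticAt (s := ((L.lattice : Set ℂ) \ {0})ᶜ)
    (fun _ hz => (hasDerivAt_zet0 hz).differentiableAt.differentiableWithinAt)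
    (L.compl_lattice_sdiff_singleton_mem_nhds 0)

lemma analyticAt_zet {z : ℂ} (hz : z ∉ L.lattice) : AnalyticAt ℂ (zet L) z :=
  DifferentiableOn.analyticAt (s := (L.lattice : Set ℂ)ᶜ)
    (fun _ hz => (hasDerivAt_zet hz).differentiableAt.differentiableWithinAt)
    (isOpen_compl.mem_nhds hz)

lemma sig_add_sq {l : ℂ} (hl : l ∈ L.lattice) (z w : ℂ) :
    sig L (z + l) * sig L (w + l) = cexp (eta L l * (z + w + l)) * (sig L z * sig L w) := by
  obtain ⟨e, he, -, h⟩ := sig_add hl
  have h1 : e * e = 1 := by rcases he with rfl | rfl <;> norm_num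
  rw [h, h, show eta L l * (z + w + l) = eta L l * (z + l / 2) + eta L l * (w + l / 2) by ring,
    exp_add]
  linear_combination cexp (eta L l * (z + l / 2)) * cexp (eta L l * (w + l / 2)) *
    sig L z * sig L w * h1

/-- The difference of two values of `℘` in terms of sigma. -/
theorem wp_sub {u v : ℂ} (hu : u ∉ L.lattice) (hv : v ∉ L.lattice) :
    ℘[L] u - ℘[L] v = -(sig L (u + v) * sig L (u - v)) / (sig L u ^ 2 * sig L v ^ 2) := by
  let h : ℂ → ℂ := fun z => sig L (z + v) * sig L (z - v) / sig L z ^ 2 + sig L v ^ 2 * ℘[L] z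
  let A : ℂ → ℂ := fun z => sig L (z + v) * sig L (z - v) / sig0 L z ^ 2 +
    sig L v ^ 2 * (1 + z ^ 2 * L.weierstrassPExcept 0 z)
  have hA : AnalyticAt ℂ A 0 := by
    have h1 := L.analyticAt_weierstrassPExcept 0
    have h2 := analyticAt_sig0 (L := L) 0
    have h3 : AnalyticAt ℂ (fun z => sig L (z + v)) 0 := (analyticAt_sig _).comp (by fun_prop)
    have h4 : AnalyticAt ℂ (fun z => sig L (z - v)) 0 := (analyticAt_sig _).comp (by fun_prop)
    exact ((h3.mul h4).div (h2.pow 2) (by simp [sig0_zero])).add (by fun_prop)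
  obtain ⟨c, hc⟩ := tendsto_div_sq hA (by simp [A, sig0_zero, sig_neg]; ring)
    (deriv_zero_of_even fun z => by
      simp only [A]
      rw [show -z + v = -(z - v) by ring, show -z - v = -(z + v) by ring, sig_neg, sig_neg,
        sig0_neg, L.weierstrassPExcept_neg, neg_zero]
      ring)
  have key : ∀ z ∉ L.lattice, h z = c := fun z hz => by
    refine liouville (fun w hw => ?_) (fun l hl w hw => ?_) (hc.congr' ?_) hz
    · have h1 := differentiable_sig L
      have h2 := (hasDerivAt_wp hw).differentiableAt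
      have h3 := sig_ne hw
      simp only [h]
      fun_prop (disch := simpa)
    · simp only [h]
      rw [L.weierstrassP_add_coe w ⟨l, hl⟩, add_right_comm w l v, add_sub_right_comm w l v,
        sig_add_sq hl, sq (sig L (w + l)), sig_add_sq hl, show w + v + (w - v) = w + w by ring,
        mul_div_mul_left _ _ (exp_ne_zero _), sq (sig L w)]
    · filter_upwards [ev_notMem (L := L) 0] with w hw
      have h1 := ne_zero_of_notMem hw
      have h2 := sig0_ne (mem_sdiff_compl hw)
      simp only [h, A]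
      rw [wp_eq, show sig L w = w * sig0 L w from rfl]
      field_simp
  have h1 := key u hu
  have h2 := key v hv
  simp only [h, sub_self, sig_zero, mul_zero, zero_div, zero_add] at h1 h2
  have h3 := sig_ne hu
  have h4 := sig_ne hv
  rw [← h2] at h1
  field_simp at h1 ⊢
  linear_combination h1

theorem wp_eq_iff {u v : ℂ} (hu : u ∉ L.lattice) (hv : v ∉ L.lattice) :
    ℘[L] u = ℘[L] v ↔ u + v ∈ L.lattice ∨ u - v ∈ L.lattice := by
  rw [← sub_eq_zero, wp_sub hu hv, div_eq_zero_iff, neg_eq_zero, mul_eq_zero, sig_eq_zero_iff,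
    sig_eq_zero_iff,
    or_iff_left (mul_ne_zero (pow_ne_zero _ (sig_ne hu)) (pow_ne_zero _ (sig_ne hv)))]

lemma wp_sub' {u v : ℂ} (hu : u ∉ L.lattice) (hv : v ∉ L.lattice) :
    sig L (u + v) * sig L (u - v) = -((℘[L] u - ℘[L] v) * sig L u ^ 2 * sig L v ^ 2) := by
  have h3 := sig_ne hu
  have h4 := sig_ne hv
  rw [wp_sub hu hv]
  field_simp

lemma deriv_eq_of_ev {f g : ℂ → ℂ} {a b z : ℂ} (hf : HasDerivAt f a z) (hg : HasDerivAt g b z)
    (h : ∀ᶠ w in 𝓝 z, f w = g w) : a = b :=
  (hf.congr_of_eventuallyEq (EventuallyEq.symm h)).unique hg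

lemma ev_add_notMem {u v : ℂ} (h : u + v ∉ L.lattice) : ∀ᶠ w in 𝓝 u, w + v ∉ L.lattice :=
  ((continuous_add_const v).tendsto u).eventually (isOpen_compl.mem_nhds h)

lemma ev_sub_notMem {u v : ℂ} (h : u - v ∉ L.lattice) : ∀ᶠ w in 𝓝 u, w - v ∉ L.lattice :=
  ((continuous_sub_right v).tendsto u).eventually (isOpen_compl.mem_nhds h)

/-- Duplication formula for sigma. -/
theorem sig_two_mul {z : ℂ} (hz : z ∉ L.lattice) : sig L (2 * z) = -℘'[L] z * sig L z ^ 4 := by
  have h1 := ((differentiable_sig L (z + z)).hasDerivAt.comp_add_const z z).mul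
    (HasDerivAt.comp_sub_const z z (by simpa using hasDerivAt_sig_zero L))
  have h2 := (((((hasDerivAt_wp hz).sub_const (℘[L] z)).mul ((hasDerivAt_sig hz).pow 2))).mul_const
    (sig L z ^ 2)).neg
  have := deriv_eq_of_ev h1 h2 (by
    filter_upwards [isOpen_compl.mem_nhds hz] with w hw using wp_sub' hw hz)
  simp only [sub_self, sig_zero, mul_zero, mul_one, zero_add, Pi.pow_apply, zero_mul,
    add_zero] at this
  rw [two_mul, this]
  ring

theorem wp'_eq_zero_iff {z : ℂ} (hz : z ∉ L.lattice) : ℘'[L] z = 0 ↔ 2 * z ∈ L.lattice := by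
  rw [← sig_eq_zero_iff, sig_two_mul hz, mul_eq_zero, neg_eq_zero,
    or_iff_left (pow_ne_zero _ (sig_ne hz))]

lemma zet_aux {u v : ℂ} (hu : u ∉ L.lattice) (hv : v ∉ L.lattice) (h1 : u + v ∉ L.lattice)
    (h2 : u - v ∉ L.lattice) :
    ℘'[L] u + (℘[L] u - ℘[L] v) * (2 * zet L u - zet L (u + v) - zet L (u - v)) = 0 := by
  have d1 := ((hasDerivAt_sig h1).comp_add_const u v).mul ((hasDerivAt_sig h2).comp_sub_const u v)
  have d2 := (((((hasDerivAt_wp hu).sub_const (℘[L] v)).mul ((hasDerivAt_sig hu).pow 2))).mul_const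
    (sig L v ^ 2)).neg
  have := deriv_eq_of_ev d1 d2 (by
    filter_upwards [isOpen_compl.mem_nhds hu] with w hw using wp_sub' hw hv)
  have h3 := wp_sub' hu hv
  refine mul_left_cancel₀ (mul_ne_zero (pow_ne_zero 2 (sig_ne hu)) (pow_ne_zero 2 (sig_ne hv))) ?_
  simp only [Pi.pow_apply, Nat.cast_ofNat, Nat.add_one_sub_one, pow_one] at this
  linear_combination this - (zet L (u + v) + zet L (u - v)) * h3

/-- Addition formula for zeta. -/
theorem zet_add_formula {u v : ℂ} (hu : u ∉ L.lattice) (hv : v ∉ L.lattice)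
    (h1 : u + v ∉ L.lattice) (h2 : u - v ∉ L.lattice) :
    ℘'[L] u - ℘'[L] v = 2 * (℘[L] u - ℘[L] v) * (zet L (u + v) - zet L u - zet L v) := by
  have a1 := zet_aux hu hv h1 h2
  have a2 := zet_aux hv hu (by rwa [add_comm]) (fun h => h2 (by simpa using neg_mem h))
  rw [add_comm v u, show v - u = -(u - v) by ring, zet_neg] at a2
  linear_combination a1 - a2

theorem hasDerivAt_wp' {z : ℂ} (hz : z ∉ L.lattice) :
    HasDerivAt ℘'[L] (6 * ℘[L] z ^ 2 - L.g₂ / 2) z := by
  have ha := L.analyticOnNhd_derivWeierstrassP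
  have h1 : ∀ w ∉ L.lattice, 2 * w ∉ L.lattice → deriv ℘'[L] w = 6 * ℘[L] w ^ 2 - L.g₂ / 2 := by
    intro w hw h2
    have d1 := (ha w hw).differentiableAt.hasDerivAt.pow 2
    have d2 := ((((hasDerivAt_wp hw).pow 3).const_mul 4).sub
      ((hasDerivAt_wp hw).const_mul L.g₂)).sub_const L.g₃
    have := deriv_eq_of_ev d1 d2 (by
      filter_upwards [isOpen_compl.mem_nhds hw] with x hx using L.derivWeierstrassP_sq x hx)
    refine mul_left_cancel₀ ((wp'_eq_zero_iff hw).not.mpr h2) ?_
    simp only [Nat.cast_ofNat, Nat.add_one_sub_one, pow_one] at this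
    linear_combination this / 2
  have h2 : deriv ℘'[L] z = 6 * ℘[L] z ^ 2 - L.g₂ / 2 := by
    have c1 := (hasDerivAt_wp hz).continuousAt
    refine tendsto_nhds_unique_of_eventuallyEq (l := 𝓝[≠] z)
      ((ha z hz).deriv.continuousAt.tendsto.mono_left nhdsWithin_le_nhds)
      ((show ContinuousAt (fun w => 6 * ℘[L] w ^ 2 - L.g₂ / 2) z by fun_prop).tendsto.mono_left
        nhdsWithin_le_nhds) ?_
    have t : Tendsto (fun w : ℂ => 2 * w) (𝓝[≠] z) (𝓝[≠] (2 * z)) :=
      tendsto_nhdsWithin_iff.mpr ⟨((continuous_const_mul 2).tendsto z).mono_left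
        nhdsWithin_le_nhds, eventually_nhdsWithin_of_forall fun w hw h =>
          hw (mul_left_cancel₀ two_ne_zero h)⟩
    filter_upwards [ev_notMem (L := L) z, t.eventually (ev_notMem (L := L) _)] with w a b
      using h1 w a b
  exact h2 ▸ (ha z hz).differentiableAt.hasDerivAt

lemma wp_ne {u v : ℂ} (hu : u ∉ L.lattice) (hv : v ∉ L.lattice)
    (h1 : u + v ∉ L.lattice) (h2 : u - v ∉ L.lattice) : ℘[L] u - ℘[L] v ≠ 0 := fun h =>
  ((wp_eq_iff hu hv).mp (sub_eq_zero.mp h)).elim h1 h2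

lemma hasDerivAt_zet_comb {u v : ℂ} (hu : u ∉ L.lattice) (h1 : u + v ∉ L.lattice) :
    HasDerivAt (fun w => zet L (w + v) - zet L w - zet L v) (℘[L] u - ℘[L] (u + v)) u := by
  refine ((((hasDerivAt_zet h1).comp_add_const u v).sub (hasDerivAt_zet hu)).sub_const
    (zet L v)).congr_deriv ?_
  ring

/-- Addition formula for `℘`. -/
theorem wp_add {u v : ℂ} (hu : u ∉ L.lattice) (hv : v ∉ L.lattice)
    (h1 : u + v ∉ L.lattice) (h2 : u - v ∉ L.lattice) :
    ℘[L] (u + v) = (zet L (u + v) - zet L u - zet L v) ^ 2 - ℘[L] u - ℘[L] v := by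
  have d1 := (hasDerivAt_wp' hu).sub_const (℘'[L] v)
  have d2 := (((hasDerivAt_wp hu).sub_const (℘[L] v)).const_mul 2).mul (hasDerivAt_zet_comb hu h1)
  have := deriv_eq_of_ev d1 d2 (by
    filter_upwards [isOpen_compl.mem_nhds hu, ev_add_notMem h1, ev_sub_notMem h2] with w a b c
      using zet_add_formula a hv b c)
  have e := zet_add_formula hu hv h1 h2
  have s1 := L.derivWeierstrassP_sq u hu
  have s2 := L.derivWeierstrassP_sq v hv
  have hne := wp_ne hu hv h1 h2
  refine mul_left_cancel₀ (mul_ne_zero (by norm_num : (4 : ℂ) ≠ 0) (pow_ne_zero 2 hne)) ?_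
  set m := zet L (u + v) - zet L u - zet L v
  linear_combination 2 * (℘[L] u - ℘[L] v) * this +
    (2 * (℘[L] u - ℘[L] v) * m - ℘'[L] u - ℘'[L] v) * e + s1 - s2

/-- Addition formula for `℘'`. -/
theorem wp'_add {u v : ℂ} (hu : u ∉ L.lattice) (hv : v ∉ L.lattice)
    (h1 : u + v ∉ L.lattice) (h2 : u - v ∉ L.lattice) :
    ℘'[L] (u + v) = 2 * (zet L (u + v) - zet L u - zet L v) * (℘[L] u - ℘[L] (u + v)) - ℘'[L] u := by
  have d1 := (hasDerivAt_wp h1).comp_add_const u v
  have d2 := (((hasDerivAt_zet_comb hu h1).pow 2).sub (hasDerivAt_wp hu)).sub_const (℘[L] v)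
  have := deriv_eq_of_ev d1 d2 (by
    filter_upwards [isOpen_compl.mem_nhds hu, ev_add_notMem h1, ev_sub_notMem h2] with w a b c
      using wp_add a hv b c)
  simpa using this

theorem wp_surjective (c : ℂ) : ∃ z ∉ L.lattice, ℘[L] z = c := by
  by_contra! h
  have hc : Tendsto (fun z => (℘[L] z - c)⁻¹) (𝓝[≠] 0) (𝓝 0) := by
    have h1 := (L.analyticAt_weierstrassPExcept 0).continuousAt
    have h2 : ContinuousAt (fun z => z ^ 2 / (1 + z ^ 2 * (L.weierstrassPExcept 0 z - c))) 0 := by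
      fun_prop (disch := simp)
    have h3 := h2.tendsto.mono_left (nhdsWithin_le_nhds (s := {0}ᶜ))
    simp only [ne_eq, OfNat.ofNat_ne_zero, not_false_eq_true, zero_pow, zero_div] at h3
    refine h3.congr' ?_
    filter_upwards [self_mem_nhdsWithin] with z hz
    have : z ≠ 0 := hz
    rw [wp_eq, ← inv_div]
    congr 1
    field_simp
    ring
  have := liouville (L := L) (f := fun z => (℘[L] z - c)⁻¹)
    (fun z hz => (((hasDerivAt_wp hz).sub_const c).inv (sub_ne_zero.mpr (h z hz))).differentiableAt)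
    (fun l hl z _ => by rw [L.weierstrassP_add_coe z ⟨l, hl⟩]) hc L.ω₁_div_two_notMem_lattice
  exact inv_ne_zero (sub_ne_zero.mpr (h _ L.ω₁_div_two_notMem_lattice)) this

lemma half_notMem (a b : ℤ) (h : Odd a ∨ Odd b) : (a * L.ω₁ + b * L.ω₂) / 2 ∉ L.lattice := by
  have := (L.mul_ω₁_add_mul_ω₂_mem_lattice (α := a / 2) (β := b / 2)).not.mpr (by
    rintro ⟨h1, h2⟩
    have k : ∀ c : ℤ, ((c : ℚ) / 2).den = 1 → ¬ Odd c := fun c hc => by
      rw [Int.not_odd_iff_even]
      refine ⟨((c : ℚ) / 2).num, ?_⟩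
      have := Rat.coe_int_num_of_den_eq_one hc
      have h3 : (c : ℚ) = ((c : ℚ) / 2).num + ((c : ℚ) / 2).num := by rw [this]; ring
      exact_mod_cast h3
    exact h.elim (k a h1) (k b h2))
  convert this using 2
  push_cast
  ring

theorem disc_ne_zero (L : PeriodPair) : L.g₂ ^ 3 - 27 * L.g₃ ^ 2 ≠ 0 := by
  have m1 := L.ω₁_mem_lattice
  have m2 := L.ω₂_mem_lattice
  have n1 := L.ω₁_div_two_notMem_lattice
  have n2 := L.ω₂_div_two_notMem_lattice
  have n3 : (L.ω₁ + L.ω₂) / 2 ∉ L.lattice := by simpa using half_notMem (L := L) 1 1 (by simp)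
  have root : ∀ l ∈ L.lattice, l / 2 ∉ L.lattice →
      4 * ℘[L] (l / 2) ^ 3 - L.g₂ * ℘[L] (l / 2) - L.g₃ = 0 := fun l hl h => by
    rw [← L.derivWeierstrassP_sq _ h, (wp'_eq_zero_iff h).mpr (by rwa [mul_div_cancel₀ _ two_ne_zero])]
    ring
  have r1 := root _ m1 n1
  have r2 := root _ m2 n2
  have r3 := root _ (add_mem m1 m2) n3
  have d12 := wp_ne n1 n2 (by rwa [← add_div]) (fun h => n3 (by
    convert add_mem h m2 using 1; ring))
  have d13 := wp_ne n1 n3 (fun h => n2 (by convert sub_mem h m1 using 1; ring))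
    (fun h => n2 (by convert neg_mem h using 1; ring))
  have d23 := wp_ne n2 n3 (fun h => n1 (by convert sub_mem h m2 using 1; ring))
    (fun h => n1 (by convert neg_mem h using 1; ring))
  set a := ℘[L] (L.ω₁ / 2)
  set b := ℘[L] (L.ω₂ / 2)
  set c := ℘[L] ((L.ω₁ + L.ω₂) / 2)
  have e1 : L.g₂ = 4 * (a ^ 2 + a * b + b ^ 2) :=
    mul_left_cancel₀ d12 (by linear_combination r2 - r1)
  have e2 : L.g₂ = 4 * (a ^ 2 + a * c + c ^ 2) :=
    mul_left_cancel₀ d13 (by linear_combination r3 - r1)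
  have e3 : c = -a - b := mul_left_cancel₀ d23 (by linear_combination (e2 - e1) / 4)
  have e4 : L.g₃ = 4 * a ^ 3 - L.g₂ * a := by linear_combination -r1
  have : L.g₂ ^ 3 - 27 * L.g₃ ^ 2 = 16 * ((a - b) * (a - c) * (b - c)) ^ 2 := by
    rw [e4, e1, e3]; ring
  rw [this]
  exact mul_ne_zero (by norm_num) (pow_ne_zero _ (mul_ne_zero (mul_ne_zero d12 d13) d23))

/-! ### Legendre relation -/

variable (L) in
/-- The Legendre determinant. -/
noncomputable def leg : ℂ := eta L L.ω₁ * L.ω₂ - eta L L.ω₂ * L.ω₁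

lemma exp_leg : cexp (leg L) = 1 := by
  obtain ⟨a, ha, -, h1⟩ := sig_add L.ω₁_mem_lattice
  obtain ⟨b, hb, -, h2⟩ := sig_add L.ω₂_mem_lattice
  have hz := L.ω₁_div_two_notMem_lattice
  set z := L.ω₁ / 2
  have e1 := h1 (z + L.ω₂)
  have e2 := h2 (z + L.ω₁)
  rw [add_right_comm, e1, h1, h2] at e2
  have ha0 : a ≠ 0 := by rcases ha with rfl | rfl <;> norm_num
  have hb0 : b ≠ 0 := by rcases hb with rfl | rfl <;> norm_num
  have e3 : cexp (eta L L.ω₁ * (z + L.ω₂ + L.ω₁ / 2) + eta L L.ω₂ * (z + L.ω₂ / 2)) =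
      cexp (eta L L.ω₂ * (z + L.ω₁ + L.ω₂ / 2) + eta L L.ω₁ * (z + L.ω₁ / 2)) := by
    rw [exp_add, exp_add]
    refine mul_left_cancel₀ (mul_ne_zero (mul_ne_zero ha0 hb0) (sig_ne hz)) ?_
    linear_combination e2
  rw [exp_eq_exp_iff_exp_sub_eq_one] at e3
  rw [← e3, leg]
  congr 1
  ring

lemma ω₁_ne : L.ω₁ ≠ 0 := ne_zero_of_notMem (L := L) L.ω₁_div_two_notMem_lattice ∘ fun h => by
  rw [h, zero_div]

lemma eta_lattice (m n : ℤ) : eta L (m * L.ω₁ + n * L.ω₂) = m * eta L L.ω₁ + n * eta L L.ω₂ := by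
  rw [map_add, ← zsmul_eq_mul, ← zsmul_eq_mul, map_zsmul, map_zsmul, zsmul_eq_mul, zsmul_eq_mul]

lemma leg_ne_zero : leg L ≠ 0 := fun h => by
  set a := eta L L.ω₁ / L.ω₁
  have h0 := ω₁_ne (L := L)
  have ha : ∀ l ∈ L.lattice, eta L l = a * l := fun l hl => by
    obtain ⟨m, n, rfl⟩ := mem_lattice.mp hl
    rw [eta_lattice]
    simp only [a]
    field_simp
    rw [leg] at h
    linear_combination -n * h
  have hd := differentiable_sig L
  have := liouville_entire (L := L) (f := fun z => sig L z * sig L z * cexp (-a * z ^ 2))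
    (by fun_prop) (fun l hl z => by
      rw [sig_add_sq hl, ha l hl, mul_comm (cexp _), mul_assoc, ← exp_add]
      congr 2
      ring) (L.ω₁ / 2) 0
  simp only [sig_zero, zero_mul] at this
  exact mul_ne_zero (mul_ne_zero (sig_ne L.ω₁_div_two_notMem_lattice)
    (sig_ne L.ω₁_div_two_notMem_lattice)) (exp_ne_zero _) this

/-- There is no elliptic function whose only pole is a simple pole on the lattice. -/
theorem no_simple_pole {f B : ℂ → ℂ} (hd : ∀ z ∉ L.lattice, DifferentiableAt ℂ f z)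
    (hp : ∀ l ∈ L.lattice, ∀ z ∉ L.lattice, f (z + l) = f z) (hB : AnalyticAt ℂ B 0)
    (hf : ∀ᶠ z in 𝓝[≠] 0, f z = B z / z) : B 0 = 0 := by
  let G : ℂ → ℂ := fun z => f z - B 0 * zet L z
  have hfa : ∀ z ∉ L.lattice, AnalyticAt ℂ f z := fun z hz =>
    DifferentiableOn.analyticAt (s := (L.lattice : Set ℂ)ᶜ)
      (fun w hw => (hd w hw).differentiableWithinAt) (isOpen_compl.mem_nhds hz)
  have hGa : ∀ z ∉ L.lattice, AnalyticAt ℂ G z := fun z hz =>
    (hfa z hz).sub (analyticAt_const.mul (analyticAt_zet hz))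
  have hGp : ∀ l ∈ L.lattice, ∀ z ∉ L.lattice, G (z + l) = G z - B 0 * eta L l :=
    fun l hl z hz => by simp only [G]; rw [hp l hl z hz, zet_add hl hz]; ring
  obtain ⟨g, hg, he⟩ := (natCast_le_analyticOrderAt (hB.sub (analyticAt_const (v := B 0)))
    (n := 1)).mp ((natCast_le_analyticOrderAt_iff_iteratedDeriv_eq_zero
      (hB.sub (analyticAt_const (v := B 0)))).mpr fun i hi => by interval_cases i; simp)
  have hG0 : AnalyticAt ℂ (fun z => g z - B 0 * zet0 L z) 0 :=
    hg.sub (analyticAt_const.mul analyticAt_zet0)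
  have hev : G =ᶠ[𝓝[≠] 0] fun z => g z - B 0 * zet0 L z := by
    filter_upwards [hf, self_mem_nhdsWithin, mem_nhdsWithin_of_mem_nhds he] with z h1 h2 h3
    have : z ≠ 0 := h2
    simp only [Pi.sub_apply, sub_zero, pow_one, smul_eq_mul] at h3
    simp only [G, h1, zet]
    field_simp
    linear_combination h3
  set c := deriv (fun z => g z - B 0 * zet0 L z) 0
  have hc : ∀ z ∉ L.lattice, deriv G z = c := fun z hz => by
    refine liouville (fun w hw => (hGa w hw).deriv.differentiableAt) (fun l hl w hw => ?_)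
      ((hG0.deriv.continuousAt.tendsto.mono_left nhdsWithin_le_nhds).congr'
        hev.nhdsNE_deriv.symm) hz
    refine deriv_eq_of_ev ((hGa _ (add_notMem hw hl)).differentiableAt.hasDerivAt.comp_add_const w l)
      ((hGa w hw).differentiableAt.hasDerivAt.sub_const (B 0 * eta L l)) ?_
    filter_upwards [isOpen_compl.mem_nhds hw] with x hx using hGp l hl x hx
  have hk : ∀ l ∈ L.lattice, B 0 * eta L l + c * l = 0 := fun l hl => by
    have hz := L.ω₁_div_two_notMem_lattice
    have := const_of_hasDerivAt (L := L) (f := fun z => G z - c * z) (fun w hw => by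
      refine ((hGa w hw).differentiableAt.hasDerivAt.sub
        ((hasDerivAt_id w).const_mul c)).congr_deriv ?_
      rw [hc w hw]; ring) (add_notMem hz hl) hz
    simp only [hGp l hl _ hz] at this
    linear_combination -this
  refine (mul_eq_zero.mp ?_).resolve_right (leg_ne_zero (L := L))
  rw [leg]
  linear_combination L.ω₂ * hk _ L.ω₁_mem_lattice - L.ω₁ * hk _ L.ω₂_mem_lattice

/-- **Legendre relation**. -/
theorem legendre : leg L = 2 * π * I ∨ leg L = -(2 * π * I) := by
  obtain ⟨k, hk⟩ := exp_eq_one_iff.mp (exp_leg (L := L))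
  have hk0 : k ≠ 0 := fun h => leg_ne_zero (L := L) (by simp [hk, h])
  have hk0' : (k : ℂ) ≠ 0 := by exact_mod_cast hk0
  suffices L.ω₁ / k ∈ L.lattice by
    have h1 := (L.mul_ω₁_add_mul_ω₂_mem_lattice (α := (k : ℚ)⁻¹) (β := 0)).mp (by
      convert this using 1; push_cast; ring)
    have h2 : k.natAbs = 1 := by simpa [Rat.inv_intCast_den, hk0] using h1.1
    rcases Int.natAbs_eq_iff.mp h2 with h | h <;> simp [hk, h]
  set s := L.ω₁ / k
  have hd := differentiable_sig L
  have := no_simple_pole (L := L)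
    (f := fun z => cexp (eta L L.ω₁ / k * z) * sig L (z - s) / sig L z)
    (B := fun z => cexp (eta L L.ω₁ / k * z) * sig L (z - s) / sig0 L z)
    (fun z hz => by have := sig_ne hz; fun_prop (disch := assumption))
    (fun l hl z hz => by
      obtain ⟨e, he, -, h⟩ := sig_add hl
      have he0 : e ≠ 0 := by rcases he with rfl | rfl <;> norm_num
      have h1 : cexp (eta L L.ω₁ / k * (z + l)) * cexp (eta L l * (z - s + l / 2)) =
          cexp (eta L L.ω₁ / k * z) * cexp (eta L l * (z + l / 2)) := by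
        obtain ⟨m, n, rfl⟩ := mem_lattice.mp hl
        rw [← exp_add, ← exp_add, exp_eq_exp_iff_exists_int]
        refine ⟨n, ?_⟩
        rw [eta_lattice]
        rw [leg] at hk
        simp only [s]
        field_simp
        linear_combination 2 * n * hk
      have h2 := sig_ne hz
      have h3 := exp_ne_zero (eta L l * (z + l / 2))
      rw [add_sub_right_comm, h, h,
        div_eq_div_iff (mul_ne_zero (mul_ne_zero he0 h3) h2) h2]
      linear_combination e * sig L z * sig L (z - s) * h1)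
    (AnalyticAt.div (Differentiable.analyticAt (by fun_prop) 0) (analyticAt_sig0 0)
      (by simp [sig0_zero]))
    (Eventually.of_forall fun z => by rw [show sig L z = z * sig0 L z from rfl]; ring)
  simp only [mul_zero, exp_zero, zero_sub, one_mul, sig0_zero, div_one] at this
  simpa using sig_eq_zero_iff.mp this

/-- If `c l - η(l) s` is an integral multiple of `2 π i` for both periods, `s` is a period. -/
theorem mem_lattice_of_exp {c s : ℂ} (h1 : cexp (c * L.ω₁ - eta L L.ω₁ * s) = 1)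
    (h2 : cexp (c * L.ω₂ - eta L L.ω₂ * s) = 1) : s ∈ L.lattice := by
  obtain ⟨a, ha⟩ := exp_eq_one_iff.mp h1
  obtain ⟨b, hb⟩ := exp_eq_one_iff.mp h2
  have key : leg L * s = (2 * π * I) * (b * L.ω₁ - a * L.ω₂) := by
    rw [leg]; linear_combination L.ω₁ * hb - L.ω₂ * ha
  rcases legendre (L := L) with h | h <;> rw [h] at key
  · exact mem_lattice.mpr ⟨b, -a, mul_left_cancel₀ two_pi_I_ne_zero (by
      push_cast; linear_combination -key)⟩
  · exact mem_lattice.mpr ⟨-b, a, mul_left_cancel₀ two_pi_I_ne_zero (by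
      push_cast; linear_combination key)⟩

/-- The form `η(z) w - η(w) z` is purely imaginary. -/
theorem re_eta_form (z w : ℂ) : (eta L z * w - eta L w * z).re = 0 := by
  have hb : ∀ x : ℂ, ∃ a b : ℝ, x = a * L.ω₁ + b * L.ω₂ := fun x =>
    ⟨L.basis.repr x 0, L.basis.repr x 1, by simpa using (L.basis.sum_repr x).symm⟩
  have he : ∀ a b : ℝ, eta L (a * L.ω₁ + b * L.ω₂) = a * eta L L.ω₁ + b * eta L L.ω₂ :=
    fun a b => by rw [map_add, ← real_smul, ← real_smul, map_smul, map_smul, real_smul, real_smul]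
  obtain ⟨a, b, rfl⟩ := hb z
  obtain ⟨c, d, rfl⟩ := hb w
  have : eta L (a * L.ω₁ + b * L.ω₂) * (c * L.ω₁ + d * L.ω₂) -
      eta L (c * L.ω₁ + d * L.ω₂) * (a * L.ω₁ + b * L.ω₂) = ((a * d - b * c : ℝ) : ℂ) * leg L := by
    rw [he, he, leg]; push_cast; ring
  rw [this, re_ofReal_mul]
  rcases legendre (L := L) with h | h <;> simp [h]

end Pool.Agent.Shared.Weier
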