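import Mathlib

set_option autoImplicit false

open Filter Topology Metric Complex PeriodPair
open scoped Real

namespace Pool.Agent.Shared.Weier

/-- The Weierstrass elementary factor of genus two. -/
noncomputable def E2 (w : ℂ) : ℂ := (1 - w) * cexp (w + w ^ 2 / 2)

lemma E2_bound {w : ℂ} (hw : ‖w‖ ≤ 1 / 2) : ‖E2 w - 1‖ ≤ 2 * ‖w‖ ^ 3 := by
  have h1 : ‖-w‖ < 1 := by rw [norm_neg]; linarith
  have h2 := norm_log_sub_logTaylor_le 2 h1
  have h3 : logTaylor (2 + 1) (-w) = -w - w ^ 2 / 2 := by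
    simp [logTaylor, Finset.sum_range_succ]; ring
  rw [h3, norm_neg] at h2
  have h0 : 1 + -w ≠ 0 := fun h => by
    have : w = 1 := by linear_combination -h
    rw [this] at hw; norm_num at hw
  have h4 : E2 w = cexp (log (1 + -w) - (-w - w ^ 2 / 2)) := by
    rw [E2, sub_eq_add_neg (log _), exp_add (log _), exp_log h0]
    congr 2
    ring
  have h5 : (1 - ‖w‖)⁻¹ ≤ 2 := by
    rw [inv_le_comm₀ (by linarith) (by norm_num)]; linarith
  have h6 : ‖log (1 + -w) - (-w - w ^ 2 / 2)‖ ≤ ‖w‖ ^ 3 := by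
    refine h2.trans ?_
    have : 0 ≤ ‖w‖ ^ 3 := by positivity
    calc _ ≤ ‖w‖ ^ 3 * 2 / 3 := by norm_num; gcongr
      _ ≤ _ := by linarith
  have h7 : ‖w‖ ^ 3 ≤ 1 := pow_le_one₀ (norm_nonneg _) (by linarith)
  rw [h4]
  exact (norm_exp_sub_one_le (h6.trans h7)).trans (by linarith)

lemma E2_eq_zero {w : ℂ} : E2 w = 0 ↔ w = 1 := by
  rw [E2, mul_eq_zero, sub_eq_zero, or_iff_left (exp_ne_zero _), eq_comm]

variable (L : PeriodPair)

lemma cofinite_large (r : ℝ) : ∀ᶠ l : L.lattice in cofinite, r ≤ ‖(l : ℂ)‖ := by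
  refine (isCompact_iff_finite.mp (isCompact_closedBall (0 : L.lattice) r)).subset fun l hl => ?_
  simp only [Set.mem_compl_iff, Set.mem_ofPred_eq, not_le] at hl
  simpa using hl.le

lemma summable_inv_cube : Summable fun l : L.lattice => ‖(l : ℂ)‖⁻¹ ^ 3 :=
  ZLattice.summable_norm_pow_inv L.lattice 3 (by simp)

lemma E2_ev {r : ℝ} (hr : 0 < r) : ∀ᶠ l : L.lattice in cofinite, ∀ z ∈ ball (0 : ℂ) r,
    ‖E2 (z / l) - 1‖ ≤ 2 * r ^ 3 * ‖(l : ℂ)‖⁻¹ ^ 3 := by
  filter_upwards [cofinite_large L (2 * r)] with l hl z hz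
  have hz' : ‖z‖ ≤ r := by simpa using (mem_ball_iff_norm.mp hz).le
  have hl0 : 0 < ‖(l : ℂ)‖ := by linarith
  refine (E2_bound ?_).trans ?_
  · rw [norm_div, div_le_iff₀ hl0]; linarith
  · rw [norm_div, div_eq_mul_inv, mul_pow, mul_assoc]
    gcongr

/-- The quotient `σ(z) / z`. -/
noncomputable def sig0 (z : ℂ) : ℂ := ∏' l : L.lattice, E2 (z / l)

/-- The Weierstrass sigma function. -/
noncomputable def sig (z : ℂ) : ℂ := z * sig0 L z

lemma hasProd_sig0 {r : ℝ} (hr : 0 < r) :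
    HasProdLocallyUniformlyOn (fun (l : L.lattice) z => E2 (z / l)) (sig0 L) (ball 0 r) := by
  have := Summable.hasProdLocallyUniformlyOn_one_add (f := fun (l : L.lattice) z => E2 (z / l) - 1)
    isOpen_ball ((summable_inv_cube L).mul_left (2 * r ^ 3)) (E2_ev L hr)
    (fun l => by unfold E2; fun_prop)
  simp only [add_sub_cancel] at this
  exact this

lemma differentiable_E2_div (l : ℂ) : Differentiable ℂ fun z => E2 (z / l) := by
  unfold E2; fun_prop

lemma mem_ball_norm_add_one (z : ℂ) : z ∈ ball (0 : ℂ) (‖z‖ + 1) := by simp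

lemma differentiable_sig0 : Differentiable ℂ (sig0 L) := fun z =>
  ((hasProd_sig0 L (r := ‖z‖ + 1) (by positivity)).differentiableOn
    (.of_forall fun s => (Differentiable.fun_finsetProd
      fun (l : L.lattice) _ => differentiable_E2_div l).differentiableOn) isOpen_ball).differentiableAt
    (isOpen_ball.mem_nhds (mem_ball_norm_add_one z))

lemma differentiable_sig : Differentiable ℂ (sig L) :=
  differentiable_id.mul (differentiable_sig0 L)

lemma sig0_zero : sig0 L 0 = 1 := by simp [sig0, E2]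

lemma sig_zero : sig L 0 = 0 := by simp [sig]

lemma sig0_neg (z : ℂ) : sig0 L (-z) = sig0 L z := by
  simp only [sig0]
  rw [← (Equiv.neg L.lattice).tprod_eq]
  congr with l
  simp [neg_div_neg_eq]

lemma sig_neg (z : ℂ) : sig L (-z) = -sig L z := by
  rw [sig, sig0_neg, sig, neg_mul]

variable {L} in
lemma E2_div_ne {z : ℂ} (hz : z ∈ ((L.lattice : Set ℂ) \ {0})ᶜ) (l : L.lattice) :
    E2 (z / l) ≠ 0 := by
  rw [Ne, E2_eq_zero]
  intro h
  have hl : (l : ℂ) ≠ 0 := fun h0 => by simp [h0] at h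
  rw [div_eq_one_iff_eq hl] at h
  exact hz ⟨h ▸ l.2, h ▸ hl⟩

variable {L} in
lemma sig0_ne {z : ℂ} (hz : z ∈ ((L.lattice : Set ℂ) \ {0})ᶜ) : sig0 L z ≠ 0 := by
  have := tprod_one_add_ne_zero_of_summable (f := fun l : L.lattice => E2 (z / l) - 1)
    (fun l => by simpa using E2_div_ne hz l)
    (((summable_inv_cube L).mul_left (2 * (‖z‖ + 1) ^ 3)).of_norm_bounded_eventually (by
      filter_upwards [E2_ev L (r := ‖z‖ + 1) (by positivity)] with l hl
      simpa using hl z (mem_ball_norm_add_one z)))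
  simp only [add_sub_cancel] at this
  exact this

variable {L} in
lemma sig_eq_zero_iff {z : ℂ} : sig L z = 0 ↔ z ∈ L.lattice := by
  constructor
  · intro h
    by_contra hz
    rcases mul_eq_zero.mp h with h | h
    · exact hz (h ▸ zero_mem _)
    · exact sig0_ne (fun h' => hz h'.1) h
  · intro hz
    rcases eq_or_ne z 0 with rfl | h0
    · exact sig_zero L
    · rw [sig, sig0, tprod_of_exists_eq_zero ⟨⟨z, hz⟩, by simp [E2_eq_zero, h0]⟩, mul_zero]

variable {L} in
lemma sig_ne {z : ℂ} (hz : z ∉ L.lattice) : sig L z ≠ 0 := fun h => hz (sig_eq_zero_iff.mp h)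

lemma hasDerivAt_sig_zero : HasDerivAt (sig L) 1 0 := by
  refine ((hasDerivAt_id (0 : ℂ)).mul (differentiable_sig0 L 0).hasDerivAt).congr_deriv ?_
  simp [sig0_zero]

/-- The function `ζ(z) - 1 / z`. -/
noncomputable def zet0 (z : ℂ) : ℂ := ∑' l : L.lattice, z ^ 2 / (l ^ 2 * (z - l))

/-- The Weierstrass zeta function. -/
noncomputable def zet (z : ℂ) : ℂ := 1 / z + zet0 L z

lemma hasSum_zet0 :
    HasSumLocallyUniformly (fun (l : L.lattice) (z : ℂ) => z ^ 2 / (l ^ 2 * (z - l))) (zet0 L) := by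
  refine L.hasSumLocallyUniformly_aux (u := fun r l => 2 * r ^ 2 * ‖(l : ℂ)‖⁻¹ ^ 3) _
    (fun _ _ => (summable_inv_cube L).mul_left _) fun r hr =>
    Filter.eventually_atTop.mpr ⟨2 * r, ?_⟩
  rintro _ h s hs l rfl
  have hl0 : 0 < ‖(l : ℂ)‖ := by linarith
  have h1 : ‖(l : ℂ)‖ / 2 ≤ ‖s - l‖ := by
    rw [norm_sub_rev]
    exact .trans (by linarith) (norm_sub_norm_le (l : ℂ) s)
  rw [norm_div, norm_mul, norm_pow, norm_pow]
  calc _ ≤ r ^ 2 / (‖(l : ℂ)‖ ^ 2 * (‖(l : ℂ)‖ / 2)) := by gcongr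
    _ = _ := by field_simp

variable {L} in
lemma sub_ne_of_mem {z : ℂ} (hz : z ∈ ((L.lattice : Set ℂ) \ {0})ᶜ) {l : L.lattice}
    (hl : (l : ℂ) ≠ 0) : z - l ≠ 0 := fun h => by
  rw [sub_eq_zero] at h
  exact hz ⟨h ▸ l.2, h ▸ hl⟩

variable {L} in
lemma hasDerivAt_zet_term {z : ℂ} (hz : z ∈ ((L.lattice : Set ℂ) \ {0})ᶜ) (l : L.lattice) :
    HasDerivAt (fun z : ℂ => z ^ 2 / (l ^ 2 * (z - l)))
      (-(if (l : ℂ) = 0 then 0 else (1 / (z - l) ^ 2 - 1 / l ^ 2))) z := by
  split_ifs with hl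
  · simpa [hl] using hasDerivAt_const z (0 : ℂ)
  · have h1 := sub_ne_of_mem hz hl
    refine ((hasDerivAt_pow 2 z).div (((hasDerivAt_id z).sub_const (l : ℂ)).const_mul
      ((l : ℂ) ^ 2)) (mul_ne_zero (pow_ne_zero _ hl) h1)).congr_deriv ?_
    simp only [id]
    field_simp
    ring

variable {L} in
lemma hasDerivAt_zet0 {z : ℂ} (hz : z ∈ ((L.lattice : Set ℂ) \ {0})ᶜ) :
    HasDerivAt (zet0 L) (-L.weierstrassPExcept 0 z) z := by
  have hd : ∀ᶠ s : Finset L.lattice in atTop, DifferentiableOn ℂ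
      (fun z : ℂ => ∑ l ∈ s, z ^ 2 / (l ^ 2 * (z - l))) ((L.lattice : Set ℂ) \ {0})ᶜ :=
    .of_forall fun s => .fun_sum fun l _ w hw =>
      (hasDerivAt_zet_term hw l).differentiableAt.differentiableWithinAt
  have h0 := (hasSum_zet0 L).tendstoLocallyUniformlyOn (s := ((L.lattice : Set ℂ) \ {0})ᶜ)
  have h1 := (h0.differentiableOn hd L.isOpen_compl_lattice_sdiff).differentiableAt
    (L.isOpen_compl_lattice_sdiff.mem_nhds hz)
  have h2 := (h0.deriv hd L.isOpen_compl_lattice_sdiff).tendsto_at hz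
  have h3 := (L.hasSum_weierstrassPExcept 0 z).neg
  have h4 : deriv (zet0 L) z = -L.weierstrassPExcept 0 z := by
    refine tendsto_nhds_unique (h2.congr fun s => ?_) h3
    exact (HasDerivAt.fun_sum fun l _ => hasDerivAt_zet_term hz l).deriv
  exact h4 ▸ h1.hasDerivAt

variable {L} in
lemma hasDerivAt_sig0 {z : ℂ} (hz : z ∈ ((L.lattice : Set ℂ) \ {0})ᶜ) :
    HasDerivAt (sig0 L) (zet0 L z * sig0 L z) z := by
  have h1 : ∀ l : L.lattice, logDeriv (fun w => E2 (w / l)) z = z ^ 2 / (l ^ 2 * (z - l)) := by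
    intro l
    rcases eq_or_ne (l : ℂ) 0 with hl | hl
    · simp [hl]
    · have h1 := sub_ne_of_mem hz hl
      have h2 := (hasDerivAt_id z).div_const (l : ℂ)
      have h3 := (h2.const_sub 1).mul ((h2.add ((h2.pow 2).div_const 2)).cexp)
      have h4 : HasDerivAt (fun w => E2 (w / l)) _ z := h3
      have h5 : (l : ℂ) - z ≠ 0 := fun h => h1 (by linear_combination -h)
      rw [logDeriv_apply, h4.deriv, E2]
      simp only [id, Pi.add_apply, Pi.pow_apply, Nat.add_one_sub_one, pow_one, Nat.cast_ofNat]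
      have : 1 - z / l = (l - z) / l := by field_simp
      rw [this]
      field_simp
      ring
  have h2 := logDeriv_tprod_eq_tsum isOpen_ball (mem_ball_norm_add_one z)
    (f := fun (l : L.lattice) w => E2 (w / l)) (E2_div_ne hz)
    (fun l => (differentiable_E2_div l).differentiableOn)
    (by simp only [h1]; exact (hasSum_zet0 L).hasSum.summable)
    (hasProd_sig0 L (by positivity)).multipliableLocallyUniformlyOn (sig0_ne hz)
  simp only [h1] at h2
  have h3 : deriv (sig0 L) z / sig0 L z = zet0 L z := h2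
  rw [← h3, div_mul_cancel₀ _ (sig0_ne hz)]
  exact (differentiable_sig0 L z).hasDerivAt

variable {L}

lemma mem_sdiff_compl {z : ℂ} (hz : z ∉ L.lattice) : z ∈ ((L.lattice : Set ℂ) \ {0})ᶜ :=
  fun h => hz h.1

lemma ne_zero_of_notMem {z : ℂ} (hz : z ∉ L.lattice) : z ≠ 0 := fun h => hz (h ▸ zero_mem _)

lemma wp_eq (z : ℂ) : ℘[L] z = 1 / z ^ 2 + L.weierstrassPExcept 0 z := by
  have := L.weierstrassPExcept_add 0 z
  simp only [ZeroMemClass.coe_zero, sub_zero, ne_eq, OfNat.ofNat_ne_zero, not_false_eq_true,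
    zero_pow, div_zero] at this
  rw [← this]; ring

lemma hasDerivAt_zet {z : ℂ} (hz : z ∉ L.lattice) : HasDerivAt (zet L) (-℘[L] z) z := by
  have h0 := ne_zero_of_notMem hz
  have : zet L = fun w => w⁻¹ + zet0 L w := by ext w; simp [zet]
  rw [this]
  refine ((hasDerivAt_inv h0).add (hasDerivAt_zet0 (mem_sdiff_compl hz))).congr_deriv ?_
  rw [wp_eq]; ring

lemma hasDerivAt_sig {z : ℂ} (hz : z ∉ L.lattice) :
    HasDerivAt (sig L) (zet L z * sig L z) z := by
  have h0 := ne_zero_of_notMem hz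
  refine ((hasDerivAt_id z).mul (hasDerivAt_sig0 (mem_sdiff_compl hz))).congr_deriv ?_
  simp only [zet, sig, id]
  field_simp

lemma hasDerivAt_wp {z : ℂ} (hz : z ∉ L.lattice) : HasDerivAt ℘[L] (℘'[L] z) z := by
  rw [← deriv_weierstrassP]
  exact (L.analyticOnNhd_weierstrassP z hz).differentiableAt.hasDerivAt

lemma zet0_neg (z : ℂ) : zet0 L (-z) = -zet0 L z := by
  simp only [zet0]
  rw [← (Equiv.neg L.lattice).tsum_eq, ← tsum_neg]
  congr with l
  simp only [Equiv.neg_apply, NegMemClass.coe_neg, even_two, Even.neg_pow]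
  rw [← div_neg]
  congr 1
  ring

lemma zet_neg (z : ℂ) : zet L (-z) = -zet L z := by
  rw [zet, zet, zet0_neg]; ring

lemma countable_lattice : (L.lattice : Set ℂ).Countable :=
  countable_of_Lindelof_of_discrete (X := L.lattice)

lemma isOpen_compl : IsOpen (L.lattice : Set ℂ)ᶜ := L.isClosed_lattice.isOpen_compl

lemma isPreconnected_compl : IsPreconnected (L.lattice : Set ℂ)ᶜ :=
  (countable_lattice.isConnected_compl_of_one_lt_rank (by simp)).2

lemma add_notMem {z l : ℂ} (hz : z ∉ L.lattice) (hl : l ∈ L.lattice) : z + l ∉ L.lattice :=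
  fun h => hz (by simpa using sub_mem h hl)

lemma ev_notMem (x : ℂ) : ∀ᶠ z in 𝓝[≠] x, z ∉ L.lattice := by
  filter_upwards [self_mem_nhdsWithin,
    mem_nhdsWithin_of_mem_nhds (L.compl_lattice_sdiff_singleton_mem_nhds x)] with z h1 h2 h3
  exact h2 ⟨h3, h1⟩

lemma const_of_hasDerivAt {f : ℂ → ℂ} (h : ∀ z ∉ L.lattice, HasDerivAt f 0 z) {z w : ℂ}
    (hz : z ∉ L.lattice) (hw : w ∉ L.lattice) : f z = f w :=
  isOpen_compl.is_const_of_deriv_eq_zero isPreconnected_compl
    (fun x hx => (h x hx).differentiableAt.differentiableWithinAt)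
    (fun x hx => (h x hx).deriv) hz hw

lemma eq_of_eq_off {f g : ℂ → ℂ} (hf : Continuous f) (hg : Continuous g)
    (h : ∀ z ∉ L.lattice, f z = g z) (z : ℂ) : f z = g z := by
  refine tendsto_nhds_unique_of_eventuallyEq (l := 𝓝[≠] z)
    (hf.continuousAt.tendsto.mono_left nhdsWithin_le_nhds)
    (hg.continuousAt.tendsto.mono_left nhdsWithin_le_nhds) ?_
  filter_upwards [ev_notMem (L := L) z] with w hw using h w hw

variable (L) in
/-- The quasi-period map, extended to an `ℝ`-linear map on `ℂ`. -/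
noncomputable def eta : ℂ →L[ℝ] ℂ :=
  (L.basis.constr ℝ ![2 * zet L (L.ω₁ / 2), 2 * zet L (L.ω₂ / 2)]).toContinuousLinearMap

lemma eta_ω₁ : eta L L.ω₁ = 2 * zet L (L.ω₁ / 2) := by
  simpa [eta] using L.basis.constr_basis ℝ ![2 * zet L (L.ω₁ / 2), 2 * zet L (L.ω₂ / 2)] 0

lemma eta_ω₂ : eta L L.ω₂ = 2 * zet L (L.ω₂ / 2) := by
  simpa [eta] using L.basis.constr_basis ℝ ![2 * zet L (L.ω₁ / 2), 2 * zet L (L.ω₂ / 2)] 1

lemma lattice_induction {P : ℂ → Prop} (h1 : P L.ω₁) (h2 : P L.ω₂) (h0 : P 0)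
    (hadd : ∀ a ∈ L.lattice, ∀ b ∈ L.lattice, P a → P b → P (a + b))
    (hneg : ∀ a ∈ L.lattice, P a → P (-a)) {l : ℂ} (hl : l ∈ L.lattice) : P l := by
  have key : ∀ a ∈ L.lattice, P a → ∀ n : ℤ, P (n * a) := fun a ha hP n => by
    induction n using Int.induction_on with
    | zero => simpa using h0
    | succ n ih =>
      have := hadd _ (L.lattice.smul_mem (n : ℤ) ha) a ha (by simpa using ih) hP
      convert this using 1
      simp [add_mul]
    | pred n ih =>
      have := hadd _ (L.lattice.smul_mem (-n : ℤ) ha) _ (neg_mem ha) (by simpa using ih)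
        (hneg a ha hP)
      convert this using 1
      simp only [Int.cast_sub, Int.cast_neg, Int.cast_natCast, Int.cast_one, neg_smul,
        natCast_zsmul, nsmul_eq_mul]
      ring
  obtain ⟨m, n, rfl⟩ := mem_lattice.mp hl
  exact hadd _ (by simpa using L.lattice.smul_mem m L.ω₁_mem_lattice) _
    (by simpa using L.lattice.smul_mem n L.ω₂_mem_lattice) (key _ L.ω₁_mem_lattice h1 m)
    (key _ L.ω₂_mem_lattice h2 n)

lemma zet_add_aux {l : ℂ} (hl : l ∈ L.lattice) (h2 : l / 2 ∉ L.lattice) {z : ℂ}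
    (hz : z ∉ L.lattice) : zet L (z + l) = zet L z + 2 * zet L (l / 2) := by
  have h := const_of_hasDerivAt (L := L) (f := fun z => zet L (z + l) - zet L z)
    (fun w hw => by
      have := ((hasDerivAt_zet (add_notMem hw hl)).comp_add_const w l).sub (hasDerivAt_zet hw)
      rwa [L.weierstrassP_add_coe w ⟨l, hl⟩, sub_self] at this) hz
    (w := -(l / 2)) (by simpa using h2)
  rw [zet_neg, show -(l / 2) + l = l / 2 by ring] at h
  linear_combination h

theorem zet_add {l : ℂ} (hl : l ∈ L.lattice) {z : ℂ} (hz : z ∉ L.lattice) :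
    zet L (z + l) = zet L z + eta L l := by
  revert z
  refine lattice_induction (P := fun l => ∀ {z : ℂ}, z ∉ L.lattice →
    zet L (z + l) = zet L z + eta L l) ?_ ?_ (by simp) ?_ ?_ hl
  · intro z hz
    rw [eta_ω₁, zet_add_aux L.ω₁_mem_lattice L.ω₁_div_two_notMem_lattice hz]
  · intro z hz
    rw [eta_ω₂, zet_add_aux L.ω₂_mem_lattice L.ω₂_div_two_notMem_lattice hz]
  · intro a ha b _ h1 h2 z hz
    rw [← add_assoc, h2 (add_notMem hz ha), h1 hz, map_add, add_assoc]
  · intro a ha h z hz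
    have := h (add_notMem hz (neg_mem ha))
    rw [neg_add_cancel_right] at this
    rw [this, map_neg]; ring

lemma exists_sig_add {l : ℂ} (hl : l ∈ L.lattice) :
    ∃ c : ℂ, ∀ z, sig L (z + l) = c * cexp (eta L l * (z + l / 2)) * sig L z := by
  obtain ⟨w, hw⟩ : ∃ w, w ∉ L.lattice := ⟨_, L.ω₁_div_two_notMem_lattice⟩
  let f := fun z => sig L (z + l) / (cexp (eta L l * (z + l / 2)) * sig L z)
  have h : ∀ z ∉ L.lattice, HasDerivAt f 0 z := fun z hz => by
    have h1 := (hasDerivAt_sig (add_notMem hz hl)).comp_add_const z l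
    have h2 := ((((hasDerivAt_id z).add_const (l / 2)).const_mul (eta L l)).cexp).mul
      (hasDerivAt_sig hz)
    refine (h1.div h2 (mul_ne_zero (exp_ne_zero _) (sig_ne hz))).congr_deriv ?_
    rw [zet_add hl hz]
    simp only [id, Pi.mul_apply]
    ring
  have hc := (differentiable_sig L).continuous
  refine ⟨f w, eq_of_eq_off (L := L) (by fun_prop) (by fun_prop) fun z hz => ?_⟩
  rw [← const_of_hasDerivAt h hz hw, mul_assoc,
    div_mul_cancel₀ _ (mul_ne_zero (exp_ne_zero _) (sig_ne hz))]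

/-- Quasi-periodicity of sigma. -/
theorem sig_add {l : ℂ} (hl : l ∈ L.lattice) : ∃ e : ℂ, (e = 1 ∨ e = -1) ∧
    (l / 2 ∉ L.lattice → e = -1) ∧
    ∀ z, sig L (z + l) = e * cexp (eta L l * (z + l / 2)) * sig L z := by
  obtain ⟨c, hc⟩ := exists_sig_add hl
  refine ⟨c, ?_, fun h2 => ?_, hc⟩
  · obtain ⟨w, hw⟩ : ∃ w, w ∉ L.lattice := ⟨_, L.ω₁_div_two_notMem_lattice⟩
    have h1 := hc w
    have h2 := hc (-(w + l))
    rw [show -(w + l) + l = -w by ring, sig_neg, sig_neg, h1] at h2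
    have h3 : cexp (eta L l * (-(w + l) + l / 2)) * cexp (eta L l * (w + l / 2)) = 1 := by
      rw [← exp_add, ← exp_zero]; congr 1; ring
    have h4 : (c ^ 2 - 1) * sig L w = 0 := by linear_combination h2 - c ^ 2 * sig L w * h3
    have h5 := (mul_eq_zero.mp h4).resolve_right (sig_ne hw)
    exact sq_eq_one_iff.mp (sub_eq_zero.mp h5)
  · have h1 := hc (-(l / 2))
    rw [show -(l / 2) + l = l / 2 by ring, sig_neg, neg_add_cancel, mul_zero, exp_zero] at h1
    have h4 : (c + 1) * sig L (l / 2) = 0 := by linear_combination h1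
    have h5 := (mul_eq_zero.mp h4).resolve_right (sig_ne h2)
    linear_combination h5

end Pool.Agent.Shared.Weier
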